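import Pool.Agent.Helper60.AV.Rb1

/-!
# Representatives modulo the doubles
-/

set_option autoImplicit false
set_option linter.unusedSectionVars false

open WeierstrassCurve

namespace Pool.Agent.Helper60.AV

variable {K : Type} [Field K] [CharZero K]

/-- the first class -/
def Cl1 (a b r t : K) (P : (cv a b).toAffine.Point) : Prop :=
  ∃ (x y : K) (h : (cv a b).toAffine.Nonsingular x y), P = Affine.Point.some x y h ∧
    ∃ c : K, c ≠ 0 ∧ x - r = t * c ^ 2

/-- the second class -/
def Cl2 (a b r t : K) (P : (cv a b).toAffine.Point) : Prop :=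
  ∃ (s τ : K) (h : (cv a b).toAffine.Nonsingular (r + s ^ 2) (s * τ)), s ≠ 0 ∧
    P = Affine.Point.some (r + s ^ 2) (s * τ) h ∧
    ∃ c : K, c ≠ 0 ∧ 2 * s ^ 2 + 3 * r + 2 * τ = t * c ^ 2

open scoped Classical in
/-- representatives -/
theorem cover {a b r : K} (hΔ : 4 * a ^ 3 + 27 * b ^ 2 ≠ 0) (hb : b = -r ^ 3 - a * r)
    (T : Finset K) (hT0 : ∀ t ∈ T, t ≠ 0)
    (hc1 : ∀ x y : K, x ≠ 0 → y ^ 2 = x * (x ^ 2 + 3 * r * x + (3 * r ^ 2 + a)) →
      ∃ t ∈ T, ∃ c : K, c ≠ 0 ∧ x = t * c ^ 2)
    (hc2 : ∀ x y : K, x ≠ 0 → y ^ 2 = x * (x ^ 2 + (-6 * r) * x + (-3 * r ^ 2 - 4 * a)) →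
      ∃ t ∈ T, ∃ c : K, c ≠ 0 ∧ x = t * c ^ 2) :
    ∃ U : Finset (cv a b).toAffine.Point, U.card ≤ (2 + T.card) ^ 2 ∧
      ∀ P : (cv a b).toAffine.Point, ∃ u ∈ U, ∃ Q : (cv a b).toAffine.Point,
        P = u + (Q + Q) := by
  have hT0' : (cv a b).toAffine.Nonsingular r 0 := by
    apply cv_nonsing hΔ
    rw [hb]; ring
  set T0 : (cv a b).toAffine.Point := Affine.Point.some r 0 hT0' with hT0d
  let rep1 : K → (cv a b).toAffine.Point := fun t =>
    if h : ∃ P, Cl1 a b r t P then Classical.choose h else 0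
  let rep2 : K → (cv a b).toAffine.Point := fun t =>
    if h : ∃ P, Cl2 a b r t P then Classical.choose h else 0
  have hrep1 : ∀ t P, Cl1 a b r t P → Cl1 a b r t (rep1 t) := by
    intro t P h
    have hex : ∃ P, Cl1 a b r t P := ⟨P, h⟩
    simp only [rep1]
    rw [dif_pos hex]
    exact Classical.choose_spec hex
  have hrep2 : ∀ t P, Cl2 a b r t P → Cl2 a b r t (rep2 t) := by
    intro t P h
    have hex : ∃ P, Cl2 a b r t P := ⟨P, h⟩
    simp only [rep2]
    rw [dif_pos hex]
    exact Classical.choose_spec hex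
  set V1 : Finset (cv a b).toAffine.Point := {0, T0} ∪ T.image (fun t => -rep1 t) with hV1
  set V2 : Finset (cv a b).toAffine.Point := {0, T0} ∪ T.image (fun t => -rep2 t) with hV2
  have hcard : ∀ f : K → (cv a b).toAffine.Point,
      (({0, T0} : Finset (cv a b).toAffine.Point) ∪ T.image f).card ≤ 2 + T.card := by
    intro f
    refine (Finset.card_union_le _ _).trans ?_
    exact Nat.add_le_add Finset.card_le_two Finset.card_image_le
  refine ⟨(V1 ×ˢ V2).image (fun p => p.1 + p.2), ?_, ?_⟩
  · refine Finset.card_image_le.trans ?_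
    rw [Finset.card_product, pow_two]
    exact Nat.mul_le_mul (hcard _) (hcard _)
  · have mem : ∀ u ∈ V1, ∀ v ∈ V2, u + v ∈ (V1 ×ˢ V2).image (fun p => p.1 + p.2) := by
      intro u hu v hv
      exact Finset.mem_image.mpr ⟨(u, v), Finset.mem_product.mpr ⟨hu, hv⟩, rfl⟩
    have m01 : (0 : (cv a b).toAffine.Point) ∈ V1 := by simp [hV1]
    have m02 : (0 : (cv a b).toAffine.Point) ∈ V2 := by simp [hV2]
    have mT1 : T0 ∈ V1 := by simp [hV1]
    have mT2 : T0 ∈ V2 := by simp [hV2]
    have mr1 : ∀ t ∈ T, -rep1 t ∈ V1 := fun t ht =>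
      Finset.mem_union_right _ (Finset.mem_image_of_mem (fun t => -rep1 t) ht)
    have mr2 : ∀ t ∈ T, -rep2 t ∈ V2 := fun t ht =>
      Finset.mem_union_right _ (Finset.mem_image_of_mem (fun t => -rep2 t) ht)
    intro P
    match P with
    | 0 => exact ⟨0 + 0, mem _ m01 _ m02, 0, by simp⟩
    | .some x y h =>
      have q := cv_eqn.mp h.1
      by_cases hx : x = r
      · subst hx
        have hy : y = 0 := by
          have : y ^ 2 = 0 := by rw [q, hb]; ring
          exact pow_eq_zero_iff (two_ne_zero) |>.mp this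
        subst hy
        exact ⟨T0 + 0, mem _ mT1 _ m02, 0, by simp [hT0d]⟩
      · have hx' : x - r ≠ 0 := sub_ne_zero.mpr hx
        obtain ⟨t, ht, c, hc, hxc⟩ := hc1 (x - r) y hx' (by rw [q, hb]; ring)
        have hcl : Cl1 a b r t (Affine.Point.some x y h) := ⟨x, y, h, rfl, c, hc, hxc⟩
        obtain ⟨x', y', h', hR, c', hc', hxc'⟩ := hrep1 t _ hcl
        have ht0 := hT0 t ht
        rcases step1 (ρ := t * c * c') hb h h' (mul_ne_zero (mul_ne_zero ht0 hc) hc')
          (by rw [hxc, hxc']; ring) with ⟨Q, hQ⟩ | ⟨s, y3, h3, e3⟩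
        · refine ⟨-rep1 t + 0, mem _ (mr1 t ht) _ m02, Q, ?_⟩
          rw [hQ, hR]
          abel
        · by_cases hs : s = 0
          · subst hs
            have q3 := cv_eqn.mp h3.1
            have hy3 : y3 = 0 := by
              have : y3 ^ 2 = 0 := by rw [q3, hb]; ring
              exact pow_eq_zero_iff (two_ne_zero) |>.mp this
            subst hy3
            refine ⟨-rep1 t + T0, mem _ (mr1 t ht) _ mT2, 0, ?_⟩
            have e4 : T0 = Affine.Point.some (r + 0 ^ 2) 0 h3 := by
              rw [hT0d]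
              simp only [Affine.Point.some.injEq, and_true]
              ring
            rw [e4, ← e3, hR]
            abel
          · have hτ : y3 = s * (y3 / s) := by field_simp
            set τ := y3 / s with hτd
            have q3 := cv_eqn.mp h3.1
            have h3' : (cv a b).toAffine.Nonsingular (r + s ^ 2) (s * τ) := by
              rw [← hτ]; exact h3
            have e3' : Affine.Point.some x y h + Affine.Point.some x' y' h' =
                Affine.Point.some (r + s ^ 2) (s * τ) h3' := by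
              rw [e3]
              simp only [Affine.Point.some.injEq, true_and]
              exact hτ
            have hτ2 : τ ^ 2 = s ^ 4 + 3 * r * s ^ 2 + (3 * r ^ 2 + a) := by
              have h5 : s ^ 2 * τ ^ 2 = s ^ 2 * (s ^ 4 + 3 * r * s ^ 2 + (3 * r ^ 2 + a)) := by
                rw [hτ, hb] at q3
                linear_combination q3
              exact mul_left_cancel₀ (pow_ne_zero 2 hs) h5
            have hD : -3 * r ^ 2 - 4 * a ≠ 0 := by
              intro h0
              apply hΔ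
              rw [hb]
              linear_combination (-(3 * r ^ 2 + a) ^ 2) * h0
            have hX0 : 2 * s ^ 2 + 3 * r + 2 * τ ≠ 0 := by
              intro h0
              apply hD
              linear_combination (2 * s ^ 2 + 3 * r - 2 * τ) * h0 + 4 * hτ2
            obtain ⟨t2, ht2, c2, hc2', hX⟩ := hc2 (2 * s ^ 2 + 3 * r + 2 * τ)
              (2 * s * (2 * s ^ 2 + 3 * r + 2 * τ)) hX0 (by
                linear_combination (-4 * (2 * s ^ 2 + 3 * r + 2 * τ)) * hτ2)
            have hcl2 : Cl2 a b r t2 (Affine.Point.some (r + s ^ 2) (s * τ) h3') :=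
              ⟨s, τ, h3', hs, rfl, c2, hc2', hX⟩
            obtain ⟨s', τ', h4, hs', hR4, c4, hc4, hX4⟩ := hrep2 t2 _ hcl2
            have q4 := cv_eqn.mp h4.1
            have hτ4 : τ' ^ 2 = s' ^ 4 + 3 * r * s' ^ 2 + (3 * r ^ 2 + a) := by
              have h5 : s' ^ 2 * τ' ^ 2 =
                  s' ^ 2 * (s' ^ 4 + 3 * r * s' ^ 2 + (3 * r ^ 2 + a)) := by
                rw [hb] at q4
                linear_combination q4
              exact mul_left_cancel₀ (pow_ne_zero 2 hs') h5
            obtain ⟨Q, hQ⟩ := step2 (h := t2 * c2 * c4) hΔ hb h3' h4 hτ2 hτ4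
              (mul_ne_zero (mul_ne_zero (hT0 t2 ht2) hc2') hc4) (by rw [hX, hX4]; ring)
            refine ⟨-rep1 t + -rep2 t2, mem _ (mr1 t ht) _ (mr2 t2 ht2), Q, ?_⟩
            rw [hQ, ← e3', hR, hR4]
            abel

end Pool.Agent.Helper60.AV
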