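import Pool.Agent.Helper60.AV.Rb2
import Pool.Agent.Helper60.AV.Rb3
import Pool.Agent.Helper91.AV.Def2

/-!
# Curves with a point of order two
-/

set_option autoImplicit false

open WeierstrassCurve IsDedekindDomain NumberField
open scoped Classical

namespace Pool.Agent.Helper60.AV

open Pool.Agent.Helper91.AV

/-- the index of the doubles -/
lemma index_le {G : Type} [AddCommGroup G] (U : Finset G)
    (hU : ∀ P : G, ∃ u ∈ U, ∃ Q : G, P = u + (Q + Q)) : idx2 G ≠ 0 ∧ idx2 G ≤ U.card := by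
  have hsurj : Function.Surjective (fun u : U =>
      (QuotientAddGroup.mk (s := (nsmulAddMonoidHom 2 : G →+ G).range) (u : G))) := by
    intro q
    obtain ⟨P, rfl⟩ := QuotientAddGroup.mk_surjective q
    obtain ⟨u, hu, Q, hQ⟩ := hU P
    refine ⟨⟨u, hu⟩, ?_⟩
    rw [QuotientAddGroup.eq]
    refine ⟨Q, ?_⟩
    rw [nsmulAddMonoidHom_apply, hQ, two_nsmul]
    simp
  have hfin : Finite (G ⧸ (nsmulAddMonoidHom 2 : G →+ G).range) := Finite.of_surjective _ hsurj
  refine ⟨?_, ?_⟩
  · exact AddSubgroup.index_ne_zero_of_finite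
  · have := Nat.card_le_card_of_surjective _ hsurj
    rw [Nat.card_eq_fintype_card (α := U), Fintype.card_coe] at this
    exact this

variable {F : Type} [Field F] [NumberField F]

lemma val_eq (v : HeightOneSpectrum (𝓞 F)) (a b : Fˣ)
    (h : v.valuation F (a : F) = v.valuation F (b : F)) :
    v.valuationOfNeZero a = v.valuationOfNeZero b := by
  rw [← v.valuationOfNeZero_eq, ← v.valuationOfNeZero_eq] at h
  exact WithZero.coe_injective h

lemma ev (v : HeightOneSpectrum (𝓞 F)) (A B : 𝓞 F) (hB : B ∉ v.asIdeal) (x : Fˣ) (y : F)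
    (h : y ^ 2 = (x : F) * ((x : F) ^ 2 + (A : F) * x + (B : F))) :
    Even (Multiplicative.toAdd (v.valuationOfNeZero x)) := by
  have vA : v.valuation F (A : F) ≤ 1 := v.valuation_le_one A
  have vB : v.valuation F (B : F) = 1 := by
    refine le_antisymm (v.valuation_le_one B) (not_lt.mp fun hlt => hB ?_)
    exact (v.valuation_lt_one_iff_mem B).mp hlt
  have vx0 : v.valuation F (x : F) ≠ 0 := by
    rw [Ne, Valuation.zero_iff]; exact x.ne_zero
  rcases lt_trichotomy (v.valuation F (x : F)) 1 with hx | hx | hx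
  · have h1 : v.valuation F ((x : F) ^ 2 + (A : F) * x) < 1 := by
      have e : (x : F) ^ 2 + (A : F) * x = x * (x + A) := by ring
      rw [e, map_mul]
      have h2 : v.valuation F ((x : F) + A) ≤ 1 :=
        (Valuation.map_add _ _ _).trans (max_le hx.le vA)
      exact mul_lt_one_of_lt_of_le hx h2
    have h3 : v.valuation F ((x : F) ^ 2 + (A : F) * x + (B : F)) = 1 := by
      rw [Valuation.map_add_eq_of_lt_right _ (by rw [vB]; exact h1), vB]
    have hy0 : y ≠ 0 := by
      rintro rfl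
      have h4 : v.valuation F ((x : F) * ((x : F) ^ 2 + (A : F) * x + (B : F))) = 0 := by
        rw [← h]; simp
      rw [map_mul, h3, mul_one] at h4
      exact vx0 h4
    have h5 : v.valuationOfNeZero x = v.valuationOfNeZero ((Units.mk0 y hy0) ^ 2) := by
      apply val_eq
      rw [Units.val_pow_eq_pow_val, Units.val_mk0, h, map_mul, h3, mul_one]
    rw [h5, map_pow, toAdd_pow, nsmul_eq_mul]
    exact even_two.mul_right _
  · have h1 : v.valuationOfNeZero x = v.valuationOfNeZero (1 : Fˣ) := by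
      apply val_eq
      rw [hx]; simp
    rw [h1, map_one, toAdd_one]
    exact Even.zero
  · have h1 : v.valuation F ((A : F) * x + (B : F)) ≤ v.valuation F (x : F) := by
      refine (Valuation.map_add _ _ _).trans (max_le ?_ ?_)
      · rw [map_mul]
        exact mul_le_of_le_one_left' vA
      · rw [vB]; exact hx.le
    have h2 : v.valuation F (x : F) < v.valuation F ((x : F) ^ 2) := by
      rw [map_pow, pow_two]
      exact lt_mul_of_one_lt_left (zero_lt_iff.mpr vx0) hx
    have h3 : v.valuation F ((x : F) ^ 2 + (A : F) * x + (B : F)) = v.valuation F ((x : F) ^ 2) := by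
      rw [add_assoc]
      exact Valuation.map_add_eq_of_lt_left _ (h1.trans_lt h2)
    have hy0 : y ≠ 0 := by
      rintro rfl
      have h4 : v.valuation F ((x : F) * ((x : F) ^ 2 + (A : F) * x + (B : F))) = 0 := by
        rw [← h]; simp
      rw [map_mul, h3, map_pow] at h4
      exact (mul_ne_zero vx0 (pow_ne_zero _ vx0)) h4
    have h5 : v.valuationOfNeZero (x ^ 3) = v.valuationOfNeZero ((Units.mk0 y hy0) ^ 2) := by
      apply val_eq
      rw [Units.val_pow_eq_pow_val, Units.val_pow_eq_pow_val, Units.val_mk0, h, map_mul, h3,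
        ← map_mul]
      congr 1
      ring
    have h6 := congrArg (fun z => Multiplicative.toAdd z) h5
    simp only [map_pow, toAdd_pow, nsmul_eq_mul] at h6
    push_cast at h6
    refine ⟨Multiplicative.toAdd (v.valuationOfNeZero (Units.mk0 y hy0)) -
      Multiplicative.toAdd (v.valuationOfNeZero x), ?_⟩
    linarith

/-- a root is an integer -/
lemma root_int (a b : 𝓞 F) (r : F) (h : r ^ 3 + (a : F) * r + (b : F) = 0) :
    ∃ r0 : 𝓞 F, (r0 : F) = r := by
  have h1 : IsIntegral (𝓞 F) r := by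
    refine ⟨Polynomial.X ^ 3 + Polynomial.C a * Polynomial.X + Polynomial.C b, ?_, ?_⟩
    · monicity!
    · simp only [Polynomial.eval₂_add, Polynomial.eval₂_mul, Polynomial.eval₂_pow,
        Polynomial.eval₂_X, Polynomial.eval₂_C]
      exact h
  exact IsIntegrallyClosed.isIntegral_iff.mp h1

theorem rb : S_RB := by
  intro F _ _ m
  obtain ⟨C, hC⟩ := sel_card F
  obtain ⟨c, hc⟩ := count_primes F m
  refine ⟨(C + 2) ^ (2 * m) * (c ^ 2 * 31 ^ (2 * Module.finrank ℚ F)), ?_⟩
  intro B a b hB ha hb hΔ hr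
  obtain ⟨r, hr⟩ := hr
  obtain ⟨r0, rfl⟩ := root_int a b r hr
  have hb0 : b = -r0 ^ 3 - a * r0 := by
    apply RingOfIntegers.ext
    push_cast
    linear_combination hr
  set x : 𝓞 F := 4 * a ^ 3 + 27 * b ^ 2 with hx
  set S := (finite_dvd x hΔ).toFinset with hS
  obtain ⟨T, hTc, hT0, hT⟩ := hC S
  have hΔF : 4 * (a : F) ^ 3 + 27 * (b : F) ^ 2 ≠ 0 := by
    intro h0
    apply hΔ
    apply RingOfIntegers.ext
    rw [hx]
    push_cast
    exact h0
  have hbF : (b : F) = -(r0 : F) ^ 3 - (a : F) * (r0 : F) := by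
    rw [hb0]; push_cast; ring
  have hfac : x = (3 * r0 ^ 2 + a) ^ 2 * (3 * r0 ^ 2 + 4 * a) := by
    rw [hx, hb0]; ring
  have hn1 : ∀ v : HeightOneSpectrum (𝓞 F), v ∉ S → 3 * r0 ^ 2 + a ∉ v.asIdeal := by
    intro v hv hm
    apply hv
    rw [hS, Set.Finite.mem_toFinset]
    change x ∈ v.asIdeal
    rw [hfac, pow_two, mul_assoc]
    exact v.asIdeal.mul_mem_right _ hm
  have hn2 : ∀ v : HeightOneSpectrum (𝓞 F), v ∉ S → -3 * r0 ^ 2 - 4 * a ∉ v.asIdeal := by
    intro v hv hm
    apply hv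
    rw [hS, Set.Finite.mem_toFinset]
    change x ∈ v.asIdeal
    have e : x = (-(3 * r0 ^ 2 + a) ^ 2) * (-3 * r0 ^ 2 - 4 * a) := by rw [hfac]; ring
    rw [e]
    exact v.asIdeal.mul_mem_left _ hm
  have c3 : ((3 : 𝓞 F) : F) = 3 := map_ofNat (algebraMap (𝓞 F) F) 3
  have c4 : ((4 : 𝓞 F) : F) = 4 := map_ofNat (algebraMap (𝓞 F) F) 4
  have c6 : ((6 : 𝓞 F) : F) = 6 := map_ofNat (algebraMap (𝓞 F) F) 6
  obtain ⟨U, hUc, hU⟩ := cover (a := (a : F)) (b := (b : F)) (r := (r0 : F)) hΔF hbF T hT0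
    (by
      intro X Y hX hY
      obtain ⟨t, ht, d, hd, e⟩ := hT (Units.mk0 X hX) (fun v hv =>
        ev v (3 * r0) (3 * r0 ^ 2 + a) (hn1 v hv) (Units.mk0 X hX) Y (by
          rw [Units.val_mk0, hY]; push_cast; simp only [c3]))
      exact ⟨t, ht, d, hd, e⟩)
    (by
      intro X Y hX hY
      obtain ⟨t, ht, d, hd, e⟩ := hT (Units.mk0 X hX) (fun v hv =>
        ev v (-6 * r0) (-3 * r0 ^ 2 - 4 * a) (hn2 v hv) (Units.mk0 X hX) Y (by
          rw [Units.val_mk0, hY]; push_cast; simp only [c3, c4, c6]))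
      exact ⟨t, ht, d, hd, e⟩)
  have hidx := index_le (G := EPt (a : F) (b : F)) U hU
  refine ⟨hidx.1, ?_⟩
  have h1 : idx2 (EPt (a : F) (b : F)) ≤ ((C + 2) * 2 ^ S.card) ^ 2 := by
    refine hidx.2.trans (hUc.trans ?_)
    apply Nat.pow_le_pow_left
    have : 1 ≤ 2 ^ S.card := Nat.one_le_two_pow
    nlinarith
  have hcx := hc x hΔ
  rw [← hS] at hcx
  have hN : (Algebra.norm ℤ x).natAbs ≤ (31 * B ^ 6) ^ Module.finrank ℚ F := by
    have h2 := norm_bound x (31 * (B : ℝ) ^ 6) (by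
      intro σ
      have h3 : σ (x : F) = 4 * σ (a : F) ^ 3 + 27 * σ (b : F) ^ 2 := by
        rw [hx]
        push_cast
        simp only [map_add, map_mul, map_pow, map_ofNat]
      rw [h3]
      calc ‖4 * σ (a : F) ^ 3 + 27 * σ (b : F) ^ 2‖
          ≤ ‖4 * σ (a : F) ^ 3‖ + ‖27 * σ (b : F) ^ 2‖ := norm_add_le _ _
        _ = 4 * ‖σ (a : F)‖ ^ 3 + 27 * ‖σ (b : F)‖ ^ 2 := by
            rw [norm_mul, norm_mul, norm_pow, norm_pow]
            norm_num
        _ ≤ 4 * ((B : ℝ) ^ 2) ^ 3 + 27 * ((B : ℝ) ^ 3) ^ 2 := by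
            have i1 := pow_le_pow_left₀ (norm_nonneg _) (ha σ) 3
            have i2 := pow_le_pow_left₀ (norm_nonneg _) (hb σ) 2
            linarith
        _ = 31 * (B : ℝ) ^ 6 := by ring)
    exact_mod_cast h2
  calc idx2 (EPt (a : F) (b : F)) ^ m ≤ (((C + 2) * 2 ^ S.card) ^ 2) ^ m :=
        Nat.pow_le_pow_left h1 m
    _ = (C + 2) ^ (2 * m) * ((2 ^ m) ^ S.card) ^ 2 := by
        rw [← pow_mul, mul_pow, ← pow_mul, ← pow_mul, ← pow_mul]
        congr 2
        ring
    _ ≤ (C + 2) ^ (2 * m) * (c * (31 * B ^ 6) ^ Module.finrank ℚ F) ^ 2 := by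
        apply Nat.mul_le_mul_left
        apply Nat.pow_le_pow_left
        exact hcx.trans (Nat.mul_le_mul_left _ hN)
    _ = (C + 2) ^ (2 * m) * (c ^ 2 * 31 ^ (2 * Module.finrank ℚ F)) *
          B ^ (12 * Module.finrank ℚ F) := by
        rw [mul_pow, mul_pow, mul_pow, ← pow_mul, ← pow_mul, ← pow_mul]
        have e1 : Module.finrank ℚ F * 2 = 2 * Module.finrank ℚ F := by ring
        have e2 : 6 * (2 * Module.finrank ℚ F) = 12 * Module.finrank ℚ F := by ring
        rw [e1, e2]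
        ring

end Pool.Agent.Helper60.AV
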