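import Pool.Agent.Helper21.AV.Rw

/-!
# Points over the completions and the local conditions (project AV of helper91), by helper60
-/

set_option autoImplicit false
set_option linter.all false

open Polynomial IsDedekindDomain Matrix NumberField Topology
open scoped Classical

namespace Pool.Agent.Helper60.AV

open Pool.Agent.N783.PF
open Pool.Agent.Helper91.AV
open Pool.Agent.Helper21.AV
open Pool.Agent.N874.PM (PLoc)
open Pool.Agent.N862.PF (top_pow sum_eq)

section loc

variable {F L : Type} [Field F] [NumberField F] [Field L] [NumberField L] [Algebra F L]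
  {g : ℕ} {f : (𝓞 F)[X]} {θ : L} {w : HeightOneSpectrum (𝓞 F)} {hG : IsGen g f θ}

/-- All coordinates are in the maximal ideal. -/
def RM (w : HeightOneSpectrum (𝓞 F)) (hG : IsGen g f θ) (z : L) : Prop :=
  ∀ i, w.valuation F (hG.basis.repr z i) < 1

/-- The largest coordinate. -/
theorem exists_max (w : HeightOneSpectrum (𝓞 F)) (hG : IsGen g f θ) {z : L} (hz : z ≠ 0) :
    ∃ i, hG.basis.repr z i ≠ 0 ∧ RI w hG ((hG.basis.repr z i)⁻¹ • z) := by
  obtain ⟨i, -, hi⟩ := Finset.exists_max_image (Finset.univ : Finset (Fin (2 * g + 1)))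
    (fun i => w.valuation F (hG.basis.repr z i)) ⟨0, Finset.mem_univ _⟩
  have h0 : hG.basis.repr z i ≠ 0 := by
    intro h0
    apply hz
    apply hG.basis.repr.injective
    ext j
    rw [map_zero, Finsupp.zero_apply]
    have h1 := hi j (Finset.mem_univ j)
    rw [h0, map_zero] at h1
    exact (map_eq_zero _).1 (le_antisymm h1 zero_le')
  refine ⟨i, h0, fun j => ?_⟩
  rw [map_smul, Finsupp.smul_apply, smul_eq_mul, map_mul, map_inv₀]
  have h1 := hi j (Finset.mem_univ j)
  have h2 : w.valuation F (hG.basis.repr z i) ≠ 0 := (_root_.map_ne_zero _).2 h0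
  calc (w.valuation F (hG.basis.repr z i))⁻¹ * w.valuation F (hG.basis.repr z j)
      ≤ (w.valuation F (hG.basis.repr z i))⁻¹ * w.valuation F (hG.basis.repr z i) :=
        mul_le_mul_right h1 _
    _ = 1 := inv_mul_cancel₀ h2

theorem RM_smul {c : F} (hc : w.valuation F c < 1) {z : L} (h : RI w hG z) : RM w hG (c • z) := by
  intro i
  rw [map_smul, Finsupp.smul_apply, smul_eq_mul, map_mul]
  exact (mul_le_of_le_one_right' (h i)).trans_lt hc

theorem RM_mul {η z : L} (h : RM w hG η) (hz : RI w hG z) : RM w hG (η * z) := by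
  by_cases h0 : η = 0
  · intro i
    rw [h0, zero_mul, map_zero, Finsupp.zero_apply, map_zero]
    exact zero_lt_one
  · obtain ⟨i, h1, h2⟩ := exists_max w hG h0
    have e : η * z = hG.basis.repr η i • (((hG.basis.repr η i)⁻¹ • η) * z) := by
      rw [smul_mul_assoc, smul_smul, mul_inv_cancel₀ h1, one_smul]
    rw [e]
    exact RM_smul (h i) (RI_mul h2 hz)

theorem RM.ri {η : L} (h : RM w hG η) : RI w hG η := fun i => (h i).le

/-- Units of `R_w`. -/
theorem unit {η : L} (h : RM w hG η) : 1 - η ≠ 0 ∧ RI w hG (1 - η) ∧ RI w hG (1 - η)⁻¹ := by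
  have key : ∀ u : L, u ≠ 0 → ∀ c : F, u = algebraMap F L c + η * u →
      w.valuation F c ≤ 1 → RI w hG u := by
    intro u hu c hc hc1
    obtain ⟨i, h1, h2⟩ := exists_max w hG hu
    have h3 : w.valuation F (hG.basis.repr u i) ≤ 1 := by
      by_contra h4
      rw [not_le] at h4
      obtain ⟨d, hd⟩ : ∃ d, d = hG.basis.repr u i := ⟨_, rfl⟩
      rw [← hd] at h1 h2 h4
      have hv : w.valuation F d ≠ 0 := (_root_.map_ne_zero _).2 h1
      have h5 : w.valuation F d⁻¹ < 1 := by
        rw [map_inv₀]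
        exact inv_lt_one_of_one_lt₀ h4
      have h6 : d⁻¹ • u = (d⁻¹ * c) • (1 : L) + η * (d⁻¹ • u) := by
        conv_lhs => rw [hc]
        rw [smul_add, mul_smul_comm, mul_smul, Algebra.algebraMap_eq_smul_one]
      have h7 : w.valuation F (d⁻¹ * c) < 1 := by
        rw [map_mul]
        exact (mul_le_of_le_one_right' hc1).trans_lt h5
      have h8 := RM_smul (hG := hG) h7 RI_one i
      have h9 := RM_mul h h2 i
      have h10 : w.valuation F (hG.basis.repr (d⁻¹ • u) i) < 1 := by
        rw [h6, map_add, Finsupp.add_apply]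
        exact (Valuation.map_add _ _ _).trans_lt (max_lt h8 h9)
      rw [map_smul, Finsupp.smul_apply, smul_eq_mul, ← hd, inv_mul_cancel₀ h1, map_one] at h10
      exact lt_irrefl _ h10
    have e : u = hG.basis.repr u i • ((hG.basis.repr u i)⁻¹ • u) := by
      rw [smul_smul, mul_inv_cancel₀ h1, one_smul]
    rw [e]
    exact RI_smul h3 h2
  have hne : 1 - η ≠ 0 := by
    intro h0
    have h1 : η = 1 := (sub_eq_zero.1 h0).symm
    have e1 : (1 : L) = hG.basis ⟨0, by omega⟩ := by rw [hG.basis_apply, pow_zero]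
    have h2 := h ⟨0, by omega⟩
    rw [h1, e1, Module.Basis.repr_self, Finsupp.single_eq_same, map_one] at h2
    exact lt_irrefl _ h2
  refine ⟨hne, RI_sub RI_one h.ri, key _ (inv_ne_zero hne) 1 ?_ (by rw [map_one])⟩
  rw [map_one]
  field_simp
  ring

/-! ### Linear functionals over an extension -/

/-- The extension of a linear functional to polynomials with coefficients in `E`. -/
noncomputable def hat (E : Type) [Field E] [Algebra F E] (θ : L) (l : L →ₗ[F] F) : E[X] →ₗ[E] E :=
  Polynomial.lsum fun k => LinearMap.toSpanSingleton E E (algebraMap F E (l (θ ^ k)))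

section hat

variable {E : Type} [Field E] [Algebra F E] (l : L →ₗ[F] F)

theorem hat_monomial (k : ℕ) (c : E) :
    hat E θ l (monomial k c) = c * algebraMap F E (l (θ ^ k)) := by
  rw [hat, Polynomial.lsum_apply, Polynomial.sum_monomial_index, LinearMap.toSpanSingleton_apply,
    smul_eq_mul]
  rw [map_zero]

theorem hat_map (p : F[X]) :
    hat E θ l (p.map (algebraMap F E)) = algebraMap F E (l (aeval θ p)) := by
  induction p using Polynomial.induction_on' with
  | add p q hp hq => rw [Polynomial.map_add, map_add, hp, hq, map_add, map_add, map_add]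
  | monomial n a =>
    rw [Polynomial.map_monomial, hat_monomial, aeval_monomial, ← map_mul, ← smul_eq_mul a,
      ← map_smul, Algebra.smul_def]

theorem hat_mul {p : F[X]} (hp : aeval θ p = 0) (q : E[X]) :
    hat E θ l (p.map (algebraMap F E) * q) = 0 := by
  induction q using Polynomial.induction_on' with
  | add q r hq hr => rw [mul_add, map_add, hq, hr, add_zero]
  | monomial n a =>
    have e : p.map (algebraMap F E) * monomial n a = a • (p * X ^ n).map (algebraMap F E) := by
      rw [Polynomial.map_mul, Polynomial.map_pow, map_X, ← C_mul_X_pow_eq_monomial, smul_eq_C_mul]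
      ring
    rw [e, map_smul, hat_map, map_mul, hp, zero_mul, map_zero, map_zero, smul_zero]

end hat

/-! ### Approximation -/

theorem apx0 (hG : IsGen g f θ) (h : F[X]) (hα : aeval θ h ≠ 0) (c : F)
    (E : Type) [Field E] [TopologicalSpace E] [IsTopologicalRing E] [Algebra F E]
    (hd : DenseRange (algebraMap F E)) (B : Set E) (hB : B ∈ 𝓝 (0 : E)) (x : E) (S : E[X])
    (hS : (fF f).map (algebraMap F E) ∣
      h.map (algebraMap F E) - (C x - C (algebraMap F E c) * X) * S ^ 2)
    (V : Set E) (hV : V ∈ 𝓝 x) :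
    ∃ (x' : F) (s η : L), algebraMap F E x' ∈ V ∧
      (∀ i, algebraMap F E (hG.basis.repr η i) ∈ B) ∧
      aeval θ h * (1 - η) = (algebraMap F L x' - algebraMap F L c * θ) * s ^ 2 := by
  set ι := algebraMap F E with hι
  obtain ⟨N, hN⟩ : ∃ N, N = S.natDegree + 1 := ⟨_, rfl⟩
  -- the functionals
  let l : Fin (2 * g + 1) → L →ₗ[F] F := fun i =>
    (hG.basis.coord i).comp (LinearMap.mulRight F (aeval θ h)⁻¹)
  have hl : ∀ i z, l i z = hG.basis.repr (z / aeval θ h) i := by
    intro i z
    simp only [l, LinearMap.comp_apply, LinearMap.mulRight_apply, Module.Basis.coord_apply,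
      div_eq_mul_inv]
  let P : E × (Fin N → E) → E[X] := fun p =>
    h.map ι - (C p.1 - C (ι c) * X) * (∑ j : Fin N, monomial (j : ℕ) (p.2 j)) ^ 2
  have hP : ∀ p i, hat E θ (l i) (P p) =
      ι (l i (aeval θ h)) - ∑ j : Fin N, ∑ k : Fin N, (p.2 j * p.2 k * (p.1 *
        ι (l i (θ ^ ((j : ℕ) + k))) - ι c * ι (l i (θ ^ ((j : ℕ) + k + 1))))) := by
    intro p i
    simp only [P]
    rw [map_sub, hat_map]
    congr 1
    rw [pow_two, Finset.sum_mul_sum, Finset.mul_sum, map_sum]
    refine Finset.sum_congr rfl fun j _ => ?_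
    rw [Finset.mul_sum, map_sum]
    refine Finset.sum_congr rfl fun k _ => ?_
    have e : (C p.1 - C (ι c) * X) * (monomial (j : ℕ) (p.2 j) * monomial (k : ℕ) (p.2 k)) =
        monomial ((j : ℕ) + k) (p.2 j * p.2 k * p.1) -
          monomial ((j : ℕ) + k + 1) (p.2 j * p.2 k * ι c) := by
      rw [monomial_mul_monomial, sub_mul, C_mul_monomial, mul_assoc, X_mul_monomial, C_mul_monomial]
      congr 2 <;> ring
    rw [e, map_sub, hat_monomial, hat_monomial]
    ring
  have hc : ∀ i, Continuous fun p => hat E θ (l i) (P p) := by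
    intro i
    simp only [hP]
    fun_prop
  let p₀ : E × (Fin N → E) := (x, fun j => S.coeff j)
  have h0 : ∀ i, hat E θ (l i) (P p₀) = 0 := by
    intro i
    have e : P p₀ = h.map ι - (C x - C (ι c) * X) * S ^ 2 := by
      simp only [P, p₀]
      congr 3
      conv_rhs => rw [S.as_sum_range' N (by omega)]
      rw [Finset.sum_range]
    obtain ⟨q, hq⟩ := hS
    rw [e, hq]
    exact hat_mul (l i) hG.root q
  have hU : {p : E × (Fin N → E) | p.1 ∈ V ∧
      ∀ i, hat E θ (l i) (P p) ∈ B} ∈ 𝓝 p₀ := by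
    have e1 : ∀ᶠ p in 𝓝 p₀, p.1 ∈ V := continuousAt_fst.eventually_mem hV
    have e2 : ∀ᶠ p in 𝓝 p₀, ∀ i, hat E θ (l i) (P p) ∈ B := by
      rw [Filter.eventually_all]
      intro i
      have e3 := (hc i).continuousAt (x := p₀)
      unfold ContinuousAt at e3
      beta_reduce at e3
      rw [h0 i] at e3
      exact e3 hB
    exact e1.and e2
  have hd' : DenseRange (Prod.map ι (Pi.map (fun _ : Fin N => ι))) :=
    hd.prodMap (DenseRange.piMap fun _ => hd)
  obtain ⟨⟨x', s'⟩, h1, h2⟩ := hd'.mem_nhds hU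
  have hPm : P (Prod.map ι (Pi.map (fun _ : Fin N => ι)) (x', s')) =
      (h - (C x' - C c * X) * (∑ j : Fin N, monomial (j : ℕ) (s' j)) ^ 2).map ι := by
    simp only [P, Prod.map, Pi.map, Polynomial.map_sub, Polynomial.map_mul, Polynomial.map_pow,
      Polynomial.map_sum, Polynomial.map_monomial, map_C, map_X]
  obtain ⟨s, hs⟩ : ∃ s : L, s = aeval θ (∑ j : Fin N, monomial (j : ℕ) (s' j) : F[X]) := ⟨_, rfl⟩
  have hz : aeval θ (h - (C x' - C c * X) * (∑ j : Fin N, monomial (j : ℕ) (s' j)) ^ 2) =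
      aeval θ h - (algebraMap F L x' - algebraMap F L c * θ) * s ^ 2 := by
    rw [hs]
    simp only [map_sub, map_mul, map_pow, aeval_C, aeval_X]
  refine ⟨x', s, (aeval θ h - (algebraMap F L x' - algebraMap F L c * θ) * s ^ 2) / aeval θ h,
    h1, fun i => ?_, ?_⟩
  · have h3 := h2 i
    rwa [hPm, hat_map, hl, hz] at h3
  · field_simp
    ring

theorem val_map (w : HeightOneSpectrum (𝓞 F)) (z : F) :
    Valued.v (algebraMap F (w.adicCompletion F) z) = w.valuation F z := by
  rw [HeightOneSpectrum.algebraMap_adicCompletion, Function.comp_apply]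
  exact HeightOneSpectrum.valuedAdicCompletion_eq_valuation' w z

theorem ball (w : HeightOneSpectrum (𝓞 F)) :
    {z : w.adicCompletion F | Valued.v z < 1} ∈ 𝓝 (0 : w.adicCompletion F) := by
  rw [Valued.mem_nhds_zero]
  refine ⟨1, fun z hz => ?_⟩
  rw [Set.mem_setOf_eq] at hz ⊢
  rwa [Units.val_one, Valuation.restrict_lt_one_iff] at hz

theorem apx (hG : IsGen g f θ) (w : HeightOneSpectrum (𝓞 F)) (h : F[X]) (hα : aeval θ h ≠ 0)
    (c : F) (x : w.adicCompletion F) (S : (w.adicCompletion F)[X])
    (hS : (fF f).map (algebraMap F (w.adicCompletion F)) ∣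
      h.map (algebraMap F (w.adicCompletion F)) -
        (C x - C (algebraMap F (w.adicCompletion F) c) * X) * S ^ 2)
    (V : Set (w.adicCompletion F)) (hV : V ∈ 𝓝 x) :
    ∃ (x' : F) (s η : L), algebraMap F (w.adicCompletion F) x' ∈ V ∧ RM w hG η ∧
      aeval θ h * (1 - η) = (algebraMap F L x' - algebraMap F L c * θ) * s ^ 2 := by
  obtain ⟨x', s, η, h1, h2, h3⟩ := apx0 hG h hα c (w.adicCompletion F)
    (HeightOneSpectrum.denseRange_algebraMap F w) _ (ball w) x S hS V hV
  refine ⟨x', s, η, h1, fun i => ?_, h3⟩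
  have h4 := h2 i
  rwa [Set.mem_setOf_eq, val_map] at h4

end loc

/-- From points over the completions to the local conditions. -/
theorem lpc : S_LPC := by
  intro F L _ _ _ _ _ a b f θ hG h hf hα w hP
  set ι := algebraMap F (w.adicCompletion F) with hι
  have hfF : fF f = X ^ 3 + C (a : F) * X + C (b : F) := by
    rw [fF, hf, Polynomial.map_add, Polynomial.map_add, Polynomial.map_mul, Polynomial.map_pow,
      map_X, map_C, map_C]
  have hfm : (fF f).map ι = X ^ 3 + C (ι a) * X + C (ι b) := by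
    rw [hfF, Polynomial.map_add, Polynomial.map_add, Polynomial.map_mul, Polynomial.map_pow,
      map_X, map_C, map_C]
  have hv : ∀ z : F, Valued.v (ι z) = w.valuation F z := val_map w
  rcases hP with ⟨k, hk⟩ | ⟨x, y, hy, hxy, k, hk⟩
  · -- the class is a square
    obtain ⟨x', s, η, h1, h2, h3⟩ := apx hG w h hα 0 1 k (by
      rw [hfm, map_zero, C_1, C_0, zero_mul, sub_zero, one_mul]
      exact hk) {z | Valued.v z = Valued.v (1 : w.adicCompletion F)}
      (Valued.locally_const (by rw [map_one]; exact one_ne_zero))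
    obtain ⟨u0, u1, u2⟩ := unit h2
    rw [Set.mem_setOf_eq, hv, map_one] at h1
    have hx0 : x' ≠ 0 := by
      rintro rfl
      rw [map_zero] at h1
      exact zero_ne_one h1
    have hxL : algebraMap F L x' ≠ 0 := (_root_.map_ne_zero _).2 hx0
    rw [map_zero, zero_mul, sub_zero] at h3
    have hs : s ≠ 0 := by
      rintro rfl
      rw [zero_pow two_ne_zero, mul_zero] at h3
      exact mul_ne_zero hα u0 h3
    refine ⟨s, algebraMap F L x' * (1 - η)⁻¹, hs, mul_ne_zero hxL (inv_ne_zero u0),
      RI_mul (RI_algebraMap h1.le) u2, ?_, Or.inl ?_⟩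
    · rw [mul_inv, inv_inv, ← map_inv₀]
      exact RI_mul (RI_algebraMap (by rw [map_inv₀, h1, inv_one])) u1
    · rw [mul_right_comm, ← h3, mul_inv_cancel_right₀ u0]
  · -- the class comes from a point
    have hy2 : C (y ^ 2)⁻¹ * C (y ^ 2) = (1 : (w.adicCompletion F)[X]) := by
      rw [← C_mul, inv_mul_cancel₀ (pow_ne_zero 2 hy), C_1]
    have hvy : Valued.v (x ^ 3 + ι a * x + ι b) = Valued.v y ^ 2 := by
      rw [← hxy, map_pow]
    have hvy0 : Valued.v y ≠ 0 := (_root_.map_ne_zero _).2 hy
    obtain ⟨x', s, η, h1', h2, h3⟩ := apx hG w h hα 1 x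
      (C (y ^ 2)⁻¹ * k * (C (x ^ 2) + C x * X + X ^ 2 + C (ι a))) (by
        obtain ⟨q, hq⟩ := hk
        rw [hfm, map_one, C_1, one_mul]
        rw [← hι] at hq
        have e1 : (C x - X) * (C (x ^ 2) + C x * X + X ^ 2 + C (ι a)) =
            C (y ^ 2) - (X ^ 3 + C (ι a) * X + C (ι b)) := by
          rw [hxy]
          simp only [C_add, C_mul, C_pow]
          ring
        obtain ⟨Q, hQ⟩ : ∃ Q, Q = C (x ^ 2) + C x * X + X ^ 2 + C (ι a) := ⟨_, rfl⟩
        obtain ⟨Y, hY⟩ : ∃ Y, Y = C (y ^ 2) := ⟨_, rfl⟩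
        obtain ⟨U, hU⟩ : ∃ U, U = C (y ^ 2)⁻¹ := ⟨_, rfl⟩
        rw [← hQ, ← hY] at e1
        rw [← hY, ← hU] at hy2
        rw [← hQ, ← hU]
        refine ⟨U ^ 2 * (Y * h.map ι + Y * q * Q + k ^ 2 * Q), ?_⟩
        linear_combination (-U ^ 2 * k ^ 2 * Q - U ^ 2 * Y * h.map ι) * e1 +
          (U ^ 2 * Y * Q) * hq - h.map ι * (1 + U * Y) * hy2)
      {z | Valued.v (z ^ 3 + ι a * z + ι b) = Valued.v (x ^ 3 + ι a * x + ι b)} (by
        have e1 : Continuous fun z : w.adicCompletion F => z ^ 3 + ι a * z + ι b := by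
          fun_prop
        refine e1.continuousAt (x := x) (Valued.locally_const ?_)
        rw [hvy]
        exact pow_ne_zero 2 hvy0)
    rw [Set.mem_setOf_eq, ← hι] at h1'
    obtain ⟨u0, u1, u2⟩ := unit h2
    rw [hvy] at h1'
    obtain ⟨y', hy'⟩ := w.valuation_surjective F (Valued.v y)
    have hy0 : y' ≠ 0 := by
      rintro rfl
      rw [map_zero] at hy'
      exact hvy0 hy'.symm
    rw [← hy'] at h1'
    have hev : w.valuation F (eval x' (fF f)) = w.valuation F y' ^ 2 := by
      rw [← h1', ← hv, hfF]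
      congr 1
      simp only [eval_add, eval_mul, eval_pow, eval_X, eval_C, map_add, map_mul, map_pow]
    rw [map_one, one_mul] at h3
    have hs : s ≠ 0 := by
      rintro rfl
      rw [zero_pow two_ne_zero, mul_zero] at h3
      exact mul_ne_zero hα u0 h3
    by_cases hx : w.valuation F x' ≤ 1
    · refine ⟨s, (1 - η)⁻¹, hs, inv_ne_zero u0, u2, by rw [inv_inv]; exact u1, Or.inr
        ⟨x', y', hx, hy0, hev, ?_⟩⟩
      rw [mul_assoc, ← h3, mul_comm (aeval θ h), inv_mul_cancel_left₀ u0]
    · rw [not_le] at hx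
      have hx0 : x' ≠ 0 := by
        rintro rfl
        rw [map_zero] at hx
        exact absurd hx (by simp)
      have hxL : algebraMap F L x' ≠ 0 := (_root_.map_ne_zero _).2 hx0
      have hyL : algebraMap F L y' ≠ 0 := (_root_.map_ne_zero _).2 hy0
      -- the valuation of `x'` is even
      have e1 : w.valuation F x' ^ 3 = w.valuation F y' ^ 2 := by
        rw [← hev, hfF]
        simp only [eval_add, eval_mul, eval_pow, eval_X, eval_C]
        rw [← map_pow, eq_comm]
        rw [add_assoc]
        apply Valuation.map_add_eq_of_lt_left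
        rw [map_pow]
        refine lt_of_le_of_lt (Valuation.map_add _ _ _) (max_lt ?_ ?_)
        · rw [map_mul]
          calc w.valuation F (a : F) * w.valuation F x' ≤ 1 * w.valuation F x' :=
                mul_le_mul_left (w.valuation_le_one a) _
            _ = w.valuation F x' := one_mul _
            _ < w.valuation F x' ^ 3 := by
                conv_lhs => rw [← pow_one (w.valuation F x')]
                exact pow_lt_pow_right₀ hx (by norm_num)
        · exact lt_of_le_of_lt (w.valuation_le_one b) (one_lt_pow₀ hx (by norm_num))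
      obtain ⟨t, ht⟩ : ∃ t, t = y' / x' := ⟨_, rfl⟩
      have ht0 : t ≠ 0 := by rw [ht]; exact div_ne_zero hy0 hx0
      have htL : algebraMap F L t ≠ 0 := (_root_.map_ne_zero _).2 ht0
      have hu : w.valuation F (x' / t ^ 2) = 1 := by
        have e2 : x' / t ^ 2 = x' ^ 3 / y' ^ 2 := by
          rw [ht]
          field_simp
        rw [e2, map_div₀, map_pow, map_pow, e1, div_self]
        exact pow_ne_zero 2 ((_root_.map_ne_zero _).2 hy0)
      have hm : RM w hG (x'⁻¹ • θ) := by
        refine RM_smul ?_ ?_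
        · rw [map_inv₀]
          exact inv_lt_one_of_one_lt₀ hx
        · have := RI_pow (w := w) hG 1
          rwa [pow_one] at this
      obtain ⟨v0, v1, v2⟩ := unit hm
      have hu0 : x' / t ^ 2 ≠ 0 := div_ne_zero hx0 (pow_ne_zero 2 ht0)
      have huL : algebraMap F L (x' / t ^ 2) ≠ 0 := (_root_.map_ne_zero _).2 hu0
      refine ⟨algebraMap F L t * s, algebraMap F L (x' / t ^ 2) * (1 - x'⁻¹ • θ) * (1 - η)⁻¹,
        mul_ne_zero htL hs, mul_ne_zero (mul_ne_zero huL v0) (inv_ne_zero u0),
        RI_mul (RI_mul (RI_algebraMap hu.le) v1) u2, ?_, Or.inl ?_⟩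
      · rw [mul_inv, mul_inv, inv_inv, ← map_inv₀]
        exact RI_mul (RI_mul (RI_algebraMap (by rw [map_inv₀, hu, inv_one])) v2) u1
      · have e3 : aeval θ h = (algebraMap F L x' - θ) * s ^ 2 * (1 - η)⁻¹ := by
          rw [← h3, mul_inv_cancel_right₀ u0]
        have e4 : algebraMap F L (x' / t ^ 2) * (1 - x'⁻¹ • θ) * algebraMap F L t ^ 2 =
            algebraMap F L x' - θ := by
          rw [Algebra.smul_def, map_div₀, map_pow, map_inv₀]
          field_simp
        rw [e3, ← e4]
        ring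

end Pool.Agent.Helper60.AV
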