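import Mathlib

/-!
# Descent by the isogeny of degree two: the algebra
-/

set_option autoImplicit false

open WeierstrassCurve

namespace Pool.Agent.Helper60.AV

variable {K : Type} [Field K]

/-- the curve `y ^ 2 = x ^ 3 + a x + b` -/
def cv (a b : K) : WeierstrassCurve K := ⟨0, 0, 0, a, b⟩

lemma cv_eqn {a b x y : K} : (cv a b).toAffine.Equation x y ↔ y ^ 2 = x ^ 3 + a * x + b := by
  rw [WeierstrassCurve.Affine.equation_iff]
  simp only [cv]
  constructor <;> intro h <;> linear_combination h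

lemma cv_Δ (a b : K) : (cv a b).Δ = -16 * (4 * a ^ 3 + 27 * b ^ 2) := by
  simp only [WeierstrassCurve.Δ, WeierstrassCurve.b₂, WeierstrassCurve.b₄, WeierstrassCurve.b₆,
    WeierstrassCurve.b₈, cv]
  ring

lemma cv_nonsing [CharZero K] {a b x y : K} (hΔ : 4 * a ^ 3 + 27 * b ^ 2 ≠ 0)
    (h : y ^ 2 = x ^ 3 + a * x + b) : (cv a b).toAffine.Nonsingular x y := by
  have : (cv a b).IsElliptic := by
    refine ⟨?_⟩
    rw [cv_Δ, isUnit_iff_ne_zero]
    exact mul_ne_zero (by norm_num) hΔ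
  exact WeierstrassCurve.Affine.equation_iff_nonsingular.mp (cv_eqn.mpr h)

set_option linter.unusedSectionVars false

section dec

variable [DecidableEq K] [CharZero K]

/-- halving, one sign -/
lemma halve1 {a b r s t g : K} (hΔ : 4 * a ^ 3 + 27 * b ^ 2 ≠ 0) (hb : b = -r ^ 3 - a * r)
    (ht : t ^ 2 = s ^ 4 + 3 * r * s ^ 2 + (3 * r ^ 2 + a)) (hg : 2 * s ^ 2 + 3 * r + 2 * t = g ^ 2)
    (h : (cv a b).toAffine.Nonsingular (r + s ^ 2) (s * t)) :
    ∃ Q : (cv a b).toAffine.Point, Q + Q = Affine.Point.some (r + s ^ 2) (s * t) h := by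
  have hB : 3 * r ^ 2 + a ≠ 0 := by
    intro h0
    apply hΔ
    have : a = -3 * r ^ 2 := by linear_combination h0
    rw [hb, this]; ring
  have hD : 3 * r ^ 2 + 4 * a ≠ 0 := by
    intro h0
    apply hΔ
    rw [hb]
    linear_combination (4 * (3 * r ^ 2 + a)^2 ) * h0 / 4
  have hg0 : g ≠ 0 := by
    rintro rfl
    apply hD
    linear_combination (-4) * ht - (2 * s ^ 2 + 3 * r - 2 * t) * hg
  set X := s ^ 2 + s * g + t with hX
  have hX0 : X ≠ 0 := by
    intro h0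
    apply hB
    linear_combination (-s ^ 2 * hg - ht + (s ^ 2 + t - s * g) * h0)
  have hQe : (X * g) ^ 2 = (r + X) ^ 3 + a * (r + X) + b := by
    rw [hb]
    linear_combination X * ht + X * (s ^ 2 - X) * hg
  have hQ : (cv a b).toAffine.Nonsingular (r + X) (X * g) := cv_nonsing hΔ hQe
  refine ⟨Affine.Point.some (r + X) (X * g) hQ, ?_⟩
  have h2Y : (2 : K) * (X * g) ≠ 0 := mul_ne_zero (by norm_num) (mul_ne_zero hX0 hg0)
  have hy' : X * g ≠ (cv a b).toAffine.negY (r + X) (X * g) := by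
    simp only [Affine.negY, cv]
    intro hh
    apply h2Y
    linear_combination hh
  have hslope : (cv a b).toAffine.slope (r + X) (r + X) (X * g) (X * g) = s + g := by
    rw [Affine.slope_of_Y_ne rfl hy']
    simp only [Affine.negY, cv]
    have e3' : X * g - (-(X * g) - 0 * (r + X) - 0) = 2 * (X * g) := by ring
    rw [e3', div_eq_iff h2Y]
    rw [hX]
    linear_combination (-1) * ht + (2 * X - s ^ 2) * hg
  rw [Affine.Point.add_self_of_Y_ne hy']
  simp only [Affine.Point.some.injEq]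
  rw [hslope]
  constructor
  · simp only [Affine.addX, cv]
    rw [hX]; linear_combination (-1) * hg
  · simp only [Affine.addY, Affine.negAddY, Affine.negY, Affine.addX, cv]
    rw [hX]; linear_combination (s + g) * hg

/-- halving -/
lemma halve2 {a b r s t g x y : K} (hΔ : 4 * a ^ 3 + 27 * b ^ 2 ≠ 0) (hb : b = -r ^ 3 - a * r)
    (ht : t ^ 2 = s ^ 4 + 3 * r * s ^ 2 + (3 * r ^ 2 + a)) (hg : 2 * s ^ 2 + 3 * r + 2 * t = g ^ 2)
    (hx : x = r + s ^ 2) (h : (cv a b).toAffine.Nonsingular x y) :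
    ∃ Q : (cv a b).toAffine.Point, Q + Q = Affine.Point.some x y h := by
  subst hx
  have hy := cv_eqn.mp h.1
  have hyy : y ^ 2 = (s * t) ^ 2 := by
    rw [hy, hb]
    linear_combination (-s ^ 2) * ht
  rcases sq_eq_sq_iff_eq_or_eq_neg.mp hyy with hy1 | hy1
  · subst hy1
    exact halve1 hΔ hb ht hg h
  · have hy2 : y = (-s) * t := by rw [hy1]; ring
    subst hy2
    have e : r + s ^ 2 = r + (-s) ^ 2 := by ring
    have h' : (cv a b).toAffine.Nonsingular (r + (-s) ^ 2) ((-s) * t) := by rw [← e]; exact h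
    obtain ⟨Q, hQ⟩ := halve1 (s := -s) hΔ hb (by rw [ht]; ring) (by rw [← hg]; ring) h'
    refine ⟨Q, ?_⟩
    rw [hQ]
    simp only [Affine.Point.some.injEq, and_true]
    exact e.symm

/-- the sum of two points with different abscissas -/
lemma add_ne {a b x1 y1 x2 y2 : K} (h1 : (cv a b).toAffine.Nonsingular x1 y1)
    (h2 : (cv a b).toAffine.Nonsingular x2 y2) (hx : x1 ≠ x2) :
    ∃ (x3 y3 : K) (h3 : (cv a b).toAffine.Nonsingular x3 y3),
      Affine.Point.some x1 y1 h1 + Affine.Point.some x2 y2 h2 = Affine.Point.some x3 y3 h3 ∧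
      x3 = ((y1 - y2) / (x1 - x2)) ^ 2 - x1 - x2 := by
  rw [Affine.Point.add_of_X_ne hx]
  refine ⟨_, _, _, rfl, ?_⟩
  rw [Affine.slope_of_X_ne hx]
  simp only [Affine.addX, cv]
  ring

/-- the sum of two points with the same abscissa is zero or a double -/
lemma add_same {a b x y1 y2 : K} (h1 : (cv a b).toAffine.Nonsingular x y1)
    (h2 : (cv a b).toAffine.Nonsingular x y2) :
    ∃ Q : (cv a b).toAffine.Point,
      Q + Q = Affine.Point.some x y1 h1 + Affine.Point.some x y2 h2 := by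
  have q1 := cv_eqn.mp h1.1
  have q2 := cv_eqn.mp h2.1
  have hyy : y1 = y2 ∨ y1 = -y2 := by
    apply sq_eq_sq_iff_eq_or_eq_neg.mp
    rw [q1, q2]
  rcases hyy with hyy | hyy
  · subst hyy
    exact ⟨_, rfl⟩
  · refine ⟨0, ?_⟩
    rw [add_zero]
    symm
    apply Affine.Point.add_of_Y_eq rfl
    simp only [Affine.negY, cv]
    linear_combination hyy

/-- the first step: the product of the shifted abscissas is a square -/
lemma step1 {a b r x1 y1 x2 y2 ρ : K} (hb : b = -r ^ 3 - a * r)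
    (h1 : (cv a b).toAffine.Nonsingular x1 y1) (h2 : (cv a b).toAffine.Nonsingular x2 y2)
    (hρ0 : ρ ≠ 0) (hρ : (x1 - r) * (x2 - r) = ρ ^ 2) :
    (∃ Q : (cv a b).toAffine.Point,
      Q + Q = Affine.Point.some x1 y1 h1 + Affine.Point.some x2 y2 h2) ∨
    ∃ (s y : K) (h : (cv a b).toAffine.Nonsingular (r + s ^ 2) y),
      Affine.Point.some x1 y1 h1 + Affine.Point.some x2 y2 h2 =
        Affine.Point.some (r + s ^ 2) y h := by
  by_cases hx : x1 = x2
  · subst hx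
    exact Or.inl (add_same h1 h2)
  · right
    obtain ⟨x3, y3, h3, e, hx3⟩ := add_ne h1 h2 hx
    have q1 := cv_eqn.mp h1.1
    have q2 := cv_eqn.mp h2.1
    have hd : x1 - x2 ≠ 0 := sub_ne_zero.mpr hx
    have hx3' : x3 = r + (((y1 * (x2 - r) - y2 * (x1 - r)) / (x1 - x2)) / ρ) ^ 2 := by
      rw [hx3, div_pow, div_pow, ← hρ, div_pow]
      have hr1 : x1 - r ≠ 0 := by
        intro h0
        rw [h0, zero_mul] at hρ
        exact hρ0 (pow_eq_zero_iff (two_ne_zero) |>.mp hρ.symm)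
      have hr2 : x2 - r ≠ 0 := by
        intro h0
        rw [h0, mul_zero] at hρ
        exact hρ0 (pow_eq_zero_iff (two_ne_zero) |>.mp hρ.symm)
      rw [hb] at q1 q2
      field_simp
      linear_combination (x1 - x2) * (x2 - r) * q1 - (x1 - x2) * (x1 - r) * q2
    rw [hx3'] at h3
    refine ⟨_, _, h3, ?_⟩
    rw [e]
    simp only [Affine.Point.some.injEq, and_true]
    exact hx3'

/-- the second step -/
lemma step2 {a b r s s' t t' h : K} (hΔ : 4 * a ^ 3 + 27 * b ^ 2 ≠ 0) (hb : b = -r ^ 3 - a * r)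
    (h1 : (cv a b).toAffine.Nonsingular (r + s ^ 2) (s * t))
    (h2 : (cv a b).toAffine.Nonsingular (r + s' ^ 2) (s' * t'))
    (ht : t ^ 2 = s ^ 4 + 3 * r * s ^ 2 + (3 * r ^ 2 + a))
    (ht' : t' ^ 2 = s' ^ 4 + 3 * r * s' ^ 2 + (3 * r ^ 2 + a))
    (hh0 : h ≠ 0)
    (hh : (2 * s ^ 2 + 3 * r + 2 * t) * (2 * s' ^ 2 + 3 * r + 2 * t') = h ^ 2) :
    ∃ Q : (cv a b).toAffine.Point, Q + Q = Affine.Point.some (r + s ^ 2) (s * t) h1 +
      Affine.Point.some (r + s' ^ 2) (s' * t') h2 := by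
  by_cases hx : r + s ^ 2 = r + s' ^ 2
  · have e : s ^ 2 = s' ^ 2 := by linear_combination hx
    have key : ∀ (x : K) (h1' : (cv a b).toAffine.Nonsingular x (s * t))
        (h2' : (cv a b).toAffine.Nonsingular (r + s' ^ 2) (s' * t')), x = r + s' ^ 2 →
        ∃ Q : (cv a b).toAffine.Point, Q + Q = Affine.Point.some x (s * t) h1' +
          Affine.Point.some (r + s' ^ 2) (s' * t') h2' := by
      intro x h1' h2' hxx
      subst hxx
      exact add_same h1' h2'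
    exact key _ h1 h2 hx
  · obtain ⟨x3, y3, h3, e, hx3⟩ := add_ne h1 h2 hx
    have hd : s ^ 2 - s' ^ 2 ≠ 0 := by
      intro h0; apply hx; linear_combination h0
    have hm : s - s' ≠ 0 := by
      intro h0; apply hd; linear_combination (s + s') * h0
    have hp : s + s' ≠ 0 := by
      intro h0; apply hd; linear_combination (s - s') * h0
    -- the number κ
    set D := 9 * r ^ 2 - 4 * (3 * r ^ 2 + a) with hD
    set κ := (h - D / h) / 2 with hκ
    have hDe : D = (2 * s ^ 2 + 3 * r) ^ 2 - 4 * t ^ 2 := by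
      rw [hD, ht]; ring
    have hDe' : D = (2 * s' ^ 2 + 3 * r) ^ 2 - 4 * t' ^ 2 := by
      rw [hD, ht']; ring
    have hκ2 : κ ^ 2 = ((2 * s ^ 2 + 3 * r) * (2 * s' ^ 2 + 3 * r) + 4 * t * t' - D) / 2 := by
      have hDh : D ^ 2 / h ^ 2 =
          (2 * s ^ 2 + 3 * r - 2 * t) * (2 * s' ^ 2 + 3 * r - 2 * t') := by
        rw [div_eq_iff (pow_ne_zero _ hh0), ← hh]
        have : D ^ 2 = ((2 * s ^ 2 + 3 * r) ^ 2 - 4 * t ^ 2) *
          ((2 * s' ^ 2 + 3 * r) ^ 2 - 4 * t' ^ 2) := by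
          rw [← hDe, ← hDe']; ring
        rw [this]; ring
      have e1 : κ ^ 2 = (h ^ 2 - 2 * D + D ^ 2 / h ^ 2) / 4 := by
        rw [hκ]; field_simp; ring
      rw [e1, hDh, ← hh]; ring
    have hx3' : x3 = r + ((t * s' - t' * s) / (s ^ 2 - s' ^ 2)) ^ 2 := by
      rw [hx3]
      have e2 : r + s ^ 2 - (r + s' ^ 2) = s ^ 2 - s' ^ 2 := by ring
      rw [e2]
      field_simp
      linear_combination (s ^ 2 - s' ^ 2) * ht - (s ^ 2 - s' ^ 2) * ht'
    have hd' : s ^ 2 - s' ^ 2 = (s - s') * (s + s') := by ring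
    have hP1 : 2 * (t * s' - t' * s) ^ 2 + 3 * r * (s ^ 2 - s' ^ 2) ^ 2 +
        2 * (t * t' * (s + s') ^ 2 - s * s' * κ ^ 2) = κ ^ 2 * (s - s') ^ 2 := by
      linear_combination (s' ^ 2 / 2) * hDe + (s ^ 2 / 2) * hDe' - (s ^ 2 + s' ^ 2) * hκ2
    have hP2 : κ ^ 2 * (κ ^ 2 - 4 * t * t') = D * (s ^ 2 - s' ^ 2) ^ 2 := by
      linear_combination (κ ^ 2 + ((2 * s ^ 2 + 3 * r) * (2 * s' ^ 2 + 3 * r) + 4 * t * t' - D) / 2
        - 4 * t * t') * hκ2 - t' ^ 2 * hDe - (((2 * s ^ 2 + 3 * r) ^ 2 - D) / 4) * hDe'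
    have hg : 2 * ((t * s' - t' * s) / (s ^ 2 - s' ^ 2)) ^ 2 + 3 * r +
        2 * ((t * t' * (s + s') ^ 2 - s * s' * κ ^ 2) / (s ^ 2 - s' ^ 2) ^ 2) =
        (κ / (s + s')) ^ 2 := by
      have e3 : (κ / (s + s')) ^ 2 = κ ^ 2 * (s - s') ^ 2 / (s ^ 2 - s' ^ 2) ^ 2 := by
        rw [hd']
        field_simp
      rw [e3, ← hP1]
      field_simp
    have hT : ((t * t' * (s + s') ^ 2 - s * s' * κ ^ 2) / (s ^ 2 - s' ^ 2) ^ 2) ^ 2 =
        ((t * s' - t' * s) / (s ^ 2 - s' ^ 2)) ^ 4 +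
        3 * r * ((t * s' - t' * s) / (s ^ 2 - s' ^ 2)) ^ 2 + (3 * r ^ 2 + a) := by
      have e4 : (t * t' * (s + s') ^ 2 - s * s' * κ ^ 2) ^ 2 = (t * s' - t' * s) ^ 4 +
          3 * r * (t * s' - t' * s) ^ 2 * (s ^ 2 - s' ^ 2) ^ 2 +
          (3 * r ^ 2 + a) * (s ^ 2 - s' ^ 2) ^ 4 := by
        have e5 : (t * t' * (s + s') ^ 2 - s * s' * κ ^ 2) = κ ^ 2 * (s - s') ^ 2 / 4
            - (s + s') ^ 2 * (κ ^ 2 - 4 * t * t') / 4 := by ring
        set M := t * t' * (s + s') ^ 2 - s * s' * κ ^ 2 with hM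
        set N := t * s' - t' * s with hN
        set d := s ^ 2 - s' ^ 2 with hd0
        have e6 : (2 * N ^ 2 + 3 * r * d ^ 2) ^ 2 - 4 * M ^ 2 = D * d ^ 4 := by
          have e7 : 2 * N ^ 2 + 3 * r * d ^ 2 = κ ^ 2 * (s - s') ^ 2 - 2 * M := by
            linear_combination hP1
          rw [e7]
          have e8 : κ ^ 2 * (s - s') ^ 2 - 4 * M = (s + s') ^ 2 * (κ ^ 2 - 4 * t * t') := by
            linear_combination (-4) * e5
          have e9 : (κ ^ 2 * (s - s') ^ 2 - 2 * M) ^ 2 - 4 * M ^ 2 =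
              κ ^ 2 * (s - s') ^ 2 * (κ ^ 2 * (s - s') ^ 2 - 4 * M) := by ring
          rw [e9, e8]
          have e10 : κ ^ 2 * (s - s') ^ 2 * ((s + s') ^ 2 * (κ ^ 2 - 4 * t * t')) =
            (κ ^ 2 * (κ ^ 2 - 4 * t * t')) * ((s - s') * (s + s')) ^ 2 := by ring
          rw [e10, hP2, ← hd']; ring
        rw [hD] at e6
        linear_combination (-1 / 4) * e6
      rw [div_pow, e4]
      field_simp
    rw [e]
    exact halve2 hΔ hb hT hg hx3' h3

end dec

end Pool.Agent.Helper60.AV
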