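import Mathlib
import Pool.Graph.R_seed8.H437R2.Man.MWSel

/-!
# Classes modulo squares with few odd orders, with a bound of their number
-/

set_option autoImplicit false

open IsDedekindDomain NumberField
open scoped nonZeroDivisors

namespace Pool.Agent.Helper60.AV

open Pool.Agent.H437R2.Man.MW

variable {K : Type} [Field K] [NumberField K]

/-- structure of ideals with even orders away from `S`, with a bound -/
lemma ideal_half_card (S : Finset (HeightOneSpectrum (𝓞 K))) :
    ∃ D : Finset (Ideal (𝓞 K)), D.card ≤ 2 ^ S.card ∧ ∀ I : Ideal (𝓞 K), I ≠ 0 →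
      (∀ v : HeightOneSpectrum (𝓞 K), v ∉ S →
        Even ((UniqueFactorizationMonoid.normalizedFactors I).count v.asIdeal)) →
      ∃ d ∈ D, ∃ J : Ideal (𝓞 K), J ≠ 0 ∧ I = J ^ 2 * d := by
  classical
  set S' : Finset (Ideal (𝓞 K)) := S.image (fun v => v.asIdeal) with hS'
  refine ⟨S'.powerset.image (fun s => ∏ x ∈ s, x), ?_, fun I hI hev => ?_⟩
  · refine Finset.card_image_le.trans ?_
    rw [Finset.card_powerset]
    exact Nat.pow_le_pow_right (by norm_num) Finset.card_image_le
  obtain ⟨t, d, hs, hd⟩ := multiset_half (UniqueFactorizationMonoid.normalizedFactors I)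
  have hdS : ∀ p ∈ d, p ∈ S' := by
    intro p hp
    have hpI : p ∈ UniqueFactorizationMonoid.normalizedFactors I := by
      rw [hs]; exact Multiset.mem_add.mpr (Or.inr hp)
    have hpp : Prime p := UniqueFactorizationMonoid.prime_of_normalized_factor p hpI
    let v : HeightOneSpectrum (𝓞 K) := ⟨p, Ideal.isPrime_of_prime hpp, hpp.ne_zero⟩
    by_contra hn
    have hv : v ∉ S := by
      intro hv
      apply hn
      rw [hS', Finset.mem_image]
      exact ⟨v, hv, rfl⟩
    have h1 := hev v hv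
    rw [hs] at h1
    have h2 : Multiset.count p d = 1 := Multiset.count_eq_one_of_mem hd hp
    have h3 : Multiset.count v.asIdeal (t + t + d) = 2 * Multiset.count p t + 1 := by
      change Multiset.count p (t + t + d) = _
      rw [Multiset.count_add, Multiset.count_add, h2]
      ring
    rw [h3] at h1
    exact (Nat.not_even_iff_odd.mpr ⟨_, rfl⟩) h1
  refine ⟨d.prod, ?_, t.prod, ?_, ?_⟩
  · rw [Finset.mem_image]
    refine ⟨d.toFinset, ?_, ?_⟩
    · rw [Finset.mem_powerset]
      intro p hp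
      exact hdS p (Multiset.mem_toFinset.mp hp)
    · rw [Finset.prod, Multiset.toFinset_val, Multiset.dedup_eq_self.mpr hd]
      simp
  · intro h0
    rw [Multiset.prod_eq_zero_iff] at h0
    have : (0 : Ideal (𝓞 K)) ∈ UniqueFactorizationMonoid.normalizedFactors I := by
      rw [hs]; exact Multiset.mem_add.mpr (Or.inl (Multiset.mem_add.mpr (Or.inl h0)))
    exact (UniqueFactorizationMonoid.prime_of_normalized_factor _ this).ne_zero rfl
  · have h2 : (UniqueFactorizationMonoid.normalizedFactors I).prod = I := by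
      have := UniqueFactorizationMonoid.prod_normalizedFactors hI
      exact associated_iff_eq.mp this
    conv_lhs => rw [← h2, hs]
    rw [Multiset.prod_add, Multiset.prod_add]
    ring

/-- integral version -/
lemma sel_int_card (K : Type) [Field K] [NumberField K] : ∃ C : ℕ, ∀ S : Finset (HeightOneSpectrum (𝓞 K)),
    ∃ T : Finset (𝓞 K), T.card ≤ C * 2 ^ S.card ∧ (∀ t ∈ T, t ≠ 0) ∧ ∀ a : 𝓞 K, a ≠ 0 →
      (∀ v : HeightOneSpectrum (𝓞 K), v ∉ S →
        Even ((UniqueFactorizationMonoid.normalizedFactors (Ideal.span {a})).count v.asIdeal)) →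
      ∃ t ∈ T, ∃ x y : 𝓞 K, x ≠ 0 ∧ y ≠ 0 ∧ x ^ 2 * a = t * y ^ 2 := by
  classical
  obtain ⟨U, hU⟩ := units_sq K
  refine ⟨Fintype.card (ClassGroup (𝓞 K)) * U.card, fun S => ?_⟩
  obtain ⟨D, hDc, hD⟩ := ideal_half_card S
  -- the relation between integers and (ideal, class)
  let Rel : Ideal (𝓞 K) × ClassGroup (𝓞 K) → 𝓞 K → Prop := fun c a =>
    a ≠ 0 ∧ ∃ J : (Ideal (𝓞 K))⁰, Ideal.span {a} = (J : Ideal (𝓞 K)) ^ 2 * c.1 ∧
      ClassGroup.mk0 J = c.2
  let rep : Ideal (𝓞 K) × ClassGroup (𝓞 K) → 𝓞 K := fun c =>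
    if h : ∃ a, Rel c a then Classical.choose h else 1
  have hrep0 : ∀ c, rep c ≠ 0 := by
    intro c
    simp only [rep]
    split_ifs with h
    · exact (Classical.choose_spec h).1
    · exact one_ne_zero
  let T : Finset (𝓞 K) := ((D ×ˢ (Finset.univ : Finset (ClassGroup (𝓞 K)))) ×ˢ U).image
    (fun c => rep c.1 * (c.2 : 𝓞 K))
  refine ⟨T, ?_, ?_, ?_⟩
  · refine Finset.card_image_le.trans ?_
    rw [Finset.card_product, Finset.card_product, Finset.card_univ]
    calc D.card * Fintype.card (ClassGroup (𝓞 K)) * U.card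
        ≤ 2 ^ S.card * Fintype.card (ClassGroup (𝓞 K)) * U.card :=
          Nat.mul_le_mul_right _ (Nat.mul_le_mul_right _ hDc)
      _ = _ := by ring
  · intro t ht
    simp only [T, Finset.mem_image] at ht
    obtain ⟨c, -, rfl⟩ := ht
    exact mul_ne_zero (hrep0 _) (Units.ne_zero _)
  · intro a ha hev
    have hI : Ideal.span {a} ≠ (0 : Ideal (𝓞 K)) := by simpa using ha
    obtain ⟨d, hd, J, hJ, hIJ⟩ := hD _ hI hev
    set J' : (Ideal (𝓞 K))⁰ := ⟨J, mem_nonZeroDivisors_iff_ne_zero.mpr hJ⟩ with hJ'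
    have hR : Rel (d, ClassGroup.mk0 J') a := ⟨ha, J', hIJ, rfl⟩
    have hex : ∃ a, Rel (d, ClassGroup.mk0 J') a := ⟨a, hR⟩
    have hrepe : rep (d, ClassGroup.mk0 J') = Classical.choose hex := by
      simp only [rep]
      rw [dif_pos hex]
    obtain ⟨hb0, J2, hJ2, hcl⟩ := Classical.choose_spec hex
    rw [← hrepe] at hb0 hJ2
    set b := rep (d, ClassGroup.mk0 J') with hb
    obtain ⟨x, y, hx, hy, hxy⟩ := ClassGroup.mk0_eq_mk0_iff.mp hcl
    -- x J2 = y J
    have h1 : Ideal.span {y ^ 2 * a} = Ideal.span {x ^ 2 * b} := by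
      rw [← Ideal.span_singleton_mul_span_singleton, ← Ideal.span_singleton_mul_span_singleton,
        ← Ideal.span_singleton_pow, ← Ideal.span_singleton_pow, hIJ, hJ2]
      have h2 : (Ideal.span {y} * (J' : Ideal (𝓞 K))) = Ideal.span {x} * (J2 : Ideal (𝓞 K)) :=
        hxy.symm
      calc Ideal.span {y} ^ 2 * (J ^ 2 * d) = (Ideal.span {y} * J) ^ 2 * d := by ring
        _ = (Ideal.span {x} * (J2 : Ideal (𝓞 K))) ^ 2 * d := by rw [← h2]
        _ = _ := by ring
    rw [Ideal.span_singleton_eq_span_singleton] at h1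
    obtain ⟨u, hu⟩ := h1.symm
    obtain ⟨t, ht, w, hw⟩ := hU u
    refine ⟨b * (t : 𝓞 K), ?_, y, x * (w : 𝓞 K), hy, mul_ne_zero hx (Units.ne_zero _), ?_⟩
    · simp only [T, Finset.mem_image]
      refine ⟨((d, ClassGroup.mk0 J'), t), ?_, rfl⟩
      simp only [Finset.mem_product, Finset.mem_univ, and_true]
      exact ⟨hd, ht⟩
    · rw [← hu, hw]
      push_cast
      ring

/-- the classes with even orders outside a finite set of primes -/
theorem sel_card (K : Type) [Field K] [NumberField K] : ∃ C : ℕ, ∀ S : Finset (HeightOneSpectrum (𝓞 K)),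
    ∃ T : Finset K, T.card ≤ C * 2 ^ S.card ∧ (∀ t ∈ T, t ≠ 0) ∧ ∀ a : Kˣ,
      (∀ v : HeightOneSpectrum (𝓞 K), v ∉ S →
        Even (Multiplicative.toAdd (v.valuationOfNeZero a))) →
      ∃ t ∈ T, ∃ b : K, b ≠ 0 ∧ (a : K) = t * b ^ 2 := by
  classical
  obtain ⟨C, hC⟩ := sel_int_card K
  refine ⟨C, fun S => ?_⟩
  obtain ⟨T, hTc, hT0, hT⟩ := hC S
  refine ⟨T.image (fun t => algebraMap (𝓞 K) K t), Finset.card_image_le.trans hTc, ?_, ?_⟩
  · intro t ht
    obtain ⟨s, hs, rfl⟩ := Finset.mem_image.mp ht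
    simpa using hT0 s hs
  · intro a hev
    obtain ⟨p, q, hq, hpq⟩ := IsFractionRing.div_surjective (A := 𝓞 K) (a : K)
    have hq0 : q ≠ 0 := nonZeroDivisors.ne_zero hq
    have hqK : algebraMap (𝓞 K) K q ≠ 0 := by simpa using hq0
    have hp0 : p ≠ 0 := by
      rintro rfl
      rw [map_zero, zero_div] at hpq
      exact a.ne_zero hpq.symm
    have hpqK : algebraMap (𝓞 K) K (p * q) ≠ 0 := by
      simpa using ⟨hp0, hq0⟩
    obtain ⟨t, ht, x, y, hx, hy, hxy⟩ := hT (p * q) (mul_ne_zero hp0 hq0) (by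
      intro v hv
      have h1 := val_int v (p * q) (mul_ne_zero hp0 hq0) (Units.mk0 _ hpqK) rfl
      have h2 : Units.mk0 _ hpqK = a * (Units.mk0 _ hqK) ^ 2 := by
        apply Units.ext
        rw [Units.val_mul, Units.val_pow_eq_pow_val, Units.val_mk0, Units.val_mk0, ← hpq, map_mul]
        field_simp
      rw [h2, map_mul, map_pow, toAdd_mul, toAdd_pow] at h1
      have h3 : Even (-((UniqueFactorizationMonoid.normalizedFactors
          (Ideal.span {p * q})).count v.asIdeal : ℤ)) := by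
        rw [← h1]
        refine (hev v hv).add ?_
        rw [nsmul_eq_mul]
        exact (even_two.mul_right _)
      rw [even_neg] at h3
      exact_mod_cast h3)
    have hxK : algebraMap (𝓞 K) K x ≠ 0 := by simpa using hx
    have hyK : algebraMap (𝓞 K) K y ≠ 0 := by simpa using hy
    refine ⟨algebraMap (𝓞 K) K t, Finset.mem_image_of_mem _ ht,
      algebraMap (𝓞 K) K y / (algebraMap (𝓞 K) K x * algebraMap (𝓞 K) K q),
      div_ne_zero hyK (mul_ne_zero hxK hqK), ?_⟩
    have h4 := congrArg (algebraMap (𝓞 K) K) hxy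
    simp only [map_mul, map_pow] at h4
    rw [← hpq]
    field_simp
    linear_combination h4

lemma finite_dvd (x : 𝓞 K) (hx : x ≠ 0) :
    {v : HeightOneSpectrum (𝓞 K) | x ∈ v.asIdeal}.Finite := by
  have h0 : Ideal.span {x} ≠ ⊥ := by
    rw [Ne, Ideal.span_singleton_eq_bot]
    exact hx
  refine (Ideal.finite_factors h0).subset fun v hv => ?_
  exact Ideal.dvd_span_singleton.2 hv

/-- the number of the prime divisors of an integer -/
lemma count_primes (K : Type) [Field K] [NumberField K] (m : ℕ) : ∃ c : ℕ, ∀ (x : 𝓞 K) (hx : x ≠ 0),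
    (2 ^ m) ^ (finite_dvd x hx).toFinset.card ≤ c * (Algebra.norm ℤ x).natAbs := by
  classical
  have hfin : {v : HeightOneSpectrum (𝓞 K) | Ideal.absNorm v.asIdeal ≤ 2 ^ m}.Finite := by
    have h1 := Ideal.finite_setOfPred_absNorm_le (S := 𝓞 K) (2 ^ m)
    refine Set.Finite.of_finite_image (f := fun v : HeightOneSpectrum (𝓞 K) => v.asIdeal)
      (h1.subset ?_) ?_
    · rintro _ ⟨v, hv, rfl⟩
      exact hv
    · intro v _ w _ h
      exact HeightOneSpectrum.ext h
  refine ⟨(2 ^ m) ^ hfin.toFinset.card, fun x hx => ?_⟩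
  set S := (finite_dvd x hx).toFinset with hS
  set S1 := S.filter (fun v => Ideal.absNorm v.asIdeal ≤ 2 ^ m) with hS1
  set S2 := S.filter (fun v => ¬ Ideal.absNorm v.asIdeal ≤ 2 ^ m) with hS2
  have hc : S.card = S1.card + S2.card := (Finset.card_filter_add_card_filter_not _).symm
  rw [hc, pow_add]
  apply Nat.mul_le_mul
  · apply Nat.pow_le_pow_right (by positivity)
    apply Finset.card_le_card
    intro v hv
    rw [hS1, Finset.mem_filter] at hv
    simpa using hv.2
  · have hdvd : ∏ v ∈ S2, v.asIdeal ∣ Ideal.span {x} := by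
      have h1 : ∏ v ∈ S2, v.asIdeal = ∏ I ∈ S2.image (fun v => v.asIdeal), I := by
        rw [Finset.prod_image]
        intro v _ w _ h
        exact HeightOneSpectrum.ext h
      rw [h1]
      apply Finset.prod_primes_dvd
      · intro I hI
        obtain ⟨v, -, rfl⟩ := Finset.mem_image.mp hI
        exact v.prime
      · intro I hI
        obtain ⟨v, hv, rfl⟩ := Finset.mem_image.mp hI
        rw [hS2, Finset.mem_filter, hS, Set.Finite.mem_toFinset] at hv
        exact Ideal.dvd_span_singleton.2 hv.1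
    have h2 := Ideal.absNorm_dvd_absNorm_of_le (Ideal.le_of_dvd hdvd)
    rw [Ideal.absNorm_span_singleton, map_prod] at h2
    have h3 : (Algebra.norm ℤ x).natAbs ≠ 0 := by
      rw [Int.natAbs_ne_zero]
      exact Algebra.norm_ne_zero_iff.mpr hx
    refine le_trans ?_ (Nat.le_of_dvd (Nat.pos_of_ne_zero h3) h2)
    rw [← Finset.prod_const]
    apply Finset.prod_le_prod'
    intro v hv
    rw [hS2, Finset.mem_filter] at hv
    exact (not_le.mp hv.2).le

/-- a bound of the norm -/
lemma norm_bound (x : 𝓞 K) (M : ℝ) (hM : ∀ σ : K →+* ℂ, ‖σ (x : K)‖ ≤ M) :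
    ((Algebra.norm ℤ x).natAbs : ℝ) ≤ M ^ Module.finrank ℚ K := by
  have h1 := InfinitePlace.prod_eq_abs_norm (x : K)
  have h2 : ((Algebra.norm ℤ x).natAbs : ℝ) = |((Algebra.norm ℚ (x : K) : ℚ) : ℝ)| := by
    rw [← Algebra.coe_norm_int, Nat.cast_natAbs]
    push_cast
    rfl
  rw [h2]
  have h3 : |((Algebra.norm ℚ (x : K) : ℚ) : ℝ)| = ∏ w : InfinitePlace K, w (x : K) ^ w.mult := by
    rw [h1]
    push_cast
    rfl
  rw [h3, ← InfinitePlace.sum_mult_eq, ← Finset.prod_pow_eq_pow_sum]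
  apply Finset.prod_le_prod
  · intro w _
    positivity
  · intro w _
    apply pow_le_pow_left₀ (by positivity)
    rw [← InfinitePlace.norm_embedding_eq]
    exact hM _

end Pool.Agent.Helper60.AV
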